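import Pool.Agent.Lib.helper3.TMain

namespace Pool.Agent.Results.MP_067393_an.Example

open Pool.Agent.Lib.helper3.KS Pool.Agent.Lib.helper3.TS

theorem result : ∃ A : BAlg, (∀ X : BiMod A, ∃ d, IsDiff X d) ∧
    (∀ (X : BiMod A) d, IsDiff X d → ∀ k, Exact d k) ∧ ¬ Amenable A :=
  main

end Pool.Agent.Results.MP_067393_an.Example
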